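import Pool.Agent.H678.GD.Ext

set_option autoImplicit false

/-!
Faithful circuit covers of weighted graphs: definitions, and cuts as finite sets of edges.
-/

namespace Pool.Agent.H678.GD

open Finset SimpleGraph
open scoped Classical

section Defs

variable {V : Type*}

/-- No single edge is an edge cut. -/
def Bridgeless (G : SimpleGraph V) : Prop :=
  ∀ a b : V, G.Adj a b → (G \ fromEdgeSet {s(a, b)}).Reachable a b

variable [Fintype V]

/-- The total weight of the edge cut `δ(S)`. -/
noncomputable def cutWeight (G : SimpleGraph V) (w : Sym2 V → ℕ) (S : Finset V) : ℕ :=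
  ∑ u : V, ∑ v : V, if (u ∈ S ∧ v ∉ S ∧ G.Adj u v) then w s(u, v) else 0

/-- The total weight at every vertex is even. -/
def Eulerian (G : SimpleGraph V) (w : Sym2 V → ℕ) : Prop :=
  ∀ v : V, Even (∑ u : V, if G.Adj v u then w s(v, u) else 0)

/-- No edge of an edge cut has more than half of the weight of the cut. -/
def Admissible (G : SimpleGraph V) (w : Sym2 V → ℕ) : Prop :=
  ∀ S : Finset V, ∀ a b : V, a ∈ S → b ∉ S → G.Adj a b → 2 * w s(a, b) ≤ cutWeight G w S

/-- Some finite list of cycles of `G` contains every edge `e` exactly `w e` times. -/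
def FaithfulCover (G : SimpleGraph V) (w : Sym2 V → ℕ) : Prop :=
  ∃ (n : ℕ) (x : Fin n → V) (p : ∀ i, G.Walk (x i) (x i)),
    (∀ i, (p i).IsCycle) ∧
    ∀ a b : V, G.Adj a b → (∑ i : Fin n, if s(a, b) ∈ (p i).edges then 1 else 0) = w s(a, b)

end Defs

section Cuts

variable {V : Type*}

/-- `e` joins `S` and its complement. -/
def Crosses (S : Finset V) (e : Sym2 V) : Prop := ∃ a ∈ S, ∃ b, b ∉ S ∧ e = s(a, b)

theorem crosses_mk (S : Finset V) (a b : V) :
    Crosses S s(a, b) ↔ ((a ∈ S ∧ b ∉ S) ∨ (b ∈ S ∧ a ∉ S)) := by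
  constructor
  · rintro ⟨x, hx, y, hy, h⟩
    rcases Sym2.eq_iff.1 h with ⟨rfl, rfl⟩ | ⟨rfl, rfl⟩
    · exact Or.inl ⟨hx, hy⟩
    · exact Or.inr ⟨hx, hy⟩
  · rintro (⟨h1, h2⟩ | ⟨h1, h2⟩)
    · exact ⟨a, h1, b, h2, rfl⟩
    · exact ⟨b, h1, a, h2, Sym2.eq_swap⟩

theorem crosses_symmDiff (S T : Finset V) (e : Sym2 V) :
    Crosses (symmDiff S T) e ↔ ((Crosses S e ∧ ¬ Crosses T e) ∨ (Crosses T e ∧ ¬ Crosses S e)) := by
  induction e using Sym2.ind with
  | _ a b =>
    simp only [crosses_mk, Finset.mem_symmDiff]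
    tauto

variable [Fintype V]

/-- The edge cut `δ(S)` as a finite set of edges. -/
noncomputable def cut (G : SimpleGraph V) (S : Finset V) : Finset (Sym2 V) :=
  (univ : Finset (Sym2 V)).filter (fun e => e ∈ G.edgeSet ∧ Crosses S e)

theorem mem_cut (G : SimpleGraph V) (S : Finset V) (e : Sym2 V) :
    e ∈ cut G S ↔ e ∈ G.edgeSet ∧ Crosses S e := by
  simp [cut]

theorem mem_cut_mk (G : SimpleGraph V) (S : Finset V) (a b : V) :
    s(a, b) ∈ cut G S ↔ G.Adj a b ∧ ((a ∈ S ∧ b ∉ S) ∨ (b ∈ S ∧ a ∉ S)) := by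
  rw [mem_cut, crosses_mk, SimpleGraph.mem_edgeSet]

theorem cut_symmDiff (G : SimpleGraph V) (S T : Finset V) :
    cut G (symmDiff S T) = symmDiff (cut G S) (cut G T) := by
  ext e
  rw [Finset.mem_symmDiff, mem_cut, mem_cut, mem_cut, crosses_symmDiff]
  tauto

theorem cutWeight_eq (G : SimpleGraph V) (w : Sym2 V → ℕ) (S : Finset V) :
    cutWeight G w S = ∑ e ∈ cut G S, w e := by
  unfold cutWeight
  rw [← Finset.sum_product']
  rw [← Finset.sum_filter]
  refine Finset.sum_bij (fun p _ => s(p.1, p.2)) ?_ ?_ ?_ ?_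
  · rintro ⟨u, v⟩ h
    simp only [Finset.mem_filter, Finset.mem_product, Finset.mem_univ, true_and] at h
    rw [mem_cut_mk]
    exact ⟨h.2.2, Or.inl ⟨h.1, h.2.1⟩⟩
  · rintro ⟨u, v⟩ h ⟨u', v'⟩ h' he
    simp only [Finset.mem_filter, Finset.mem_product, Finset.mem_univ, true_and] at h h'
    rcases Sym2.eq_iff.1 he with ⟨h1, h2⟩ | ⟨h1, h2⟩
    · exact Prod.ext h1 h2
    · simp only at h1 h2
      subst h1 h2
      exact absurd h.1 h'.2.1
  · intro e he
    induction e using Sym2.ind with
    | _ a b =>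
      rw [mem_cut_mk] at he
      rcases he with ⟨hab, ⟨h1, h2⟩ | ⟨h1, h2⟩⟩
      · exact ⟨(a, b), by simp [h1, h2, hab], rfl⟩
      · exact ⟨(b, a), by simp [h1, h2, hab.symm], Sym2.eq_swap⟩
  · rintro ⟨u, v⟩ h
    rfl

theorem cut_ne_singleton {G : SimpleGraph V} (hG : Bridgeless G) (e : Sym2 V) (S : Finset V) :
    cut G S ≠ {e} := by
  intro h
  induction e using Sym2.ind with
  | _ a b =>
    have he : s(a, b) ∈ cut G S := by rw [h]; exact Finset.mem_singleton_self _
    rw [mem_cut_mk] at he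
    obtain ⟨hab, hc⟩ := he
    have key : ∀ (u v : V), (G \ fromEdgeSet {s(a, b)}).Reachable u v → (u ∈ S ↔ v ∈ S) := by
      intro u v huv
      obtain ⟨p⟩ := huv
      induction p with
      | nil => exact Iff.rfl
      | @cons x y z hxy _ ih =>
        refine Iff.trans ?_ ih
        rw [SimpleGraph.sdiff_adj, SimpleGraph.fromEdgeSet_adj] at hxy
        obtain ⟨h1, h2⟩ := hxy
        by_contra hcon
        have : s(x, y) ∈ cut G S := by
          rw [mem_cut_mk]
          refine ⟨h1, ?_⟩
          tauto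
        rw [h, Finset.mem_singleton] at this
        exact h2 ⟨by simpa using this, h1.ne⟩
    have := key a b (hG a b hab)
    tauto

omit [Fintype V] in
/-- A walk crosses a cut an even number of times if and only if its ends are on the same side. -/
theorem walk_parity {G : SimpleGraph V} (S : Finset V) {u v : V} (p : G.Walk u v) :
    Even (p.edges.countP (fun e => decide (Crosses S e))) ↔ (u ∈ S ↔ v ∈ S) := by
  induction p with
  | nil => simp
  | @cons x y z hxy q ih =>
    rw [Walk.edges_cons, List.countP_cons]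
    by_cases hc : Crosses S s(x, y)
    · simp only [hc, decide_true, if_true]
      rw [Nat.even_add_one, ih]
      rw [crosses_mk] at hc
      tauto
    · simp only [hc, decide_false, Bool.false_eq_true, if_false, add_zero]
      rw [ih]
      rw [crosses_mk] at hc
      tauto

/-- A cycle contains an even number of edges of every cut. -/
theorem cycle_cut_even {G : SimpleGraph V} (S : Finset V) {u : V} (p : G.Walk u u)
    (hp : p.IsCycle) : Even (∑ e ∈ cut G S, if e ∈ p.edges then 1 else 0) := by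
  have h1 : (∑ e ∈ cut G S, if e ∈ p.edges then 1 else 0) =
      p.edges.countP (fun e => decide (Crosses S e)) := by
    rw [← Finset.card_filter, List.countP_eq_length_filter,
      ← List.toFinset_card_of_nodup (hp.isTrail.edges_nodup.filter _)]
    congr 1
    ext e
    rw [Finset.mem_filter, mem_cut, List.mem_toFinset, List.mem_filter, decide_eq_true_eq]
    constructor
    · rintro ⟨⟨_, h2⟩, h3⟩
      exact ⟨h3, h2⟩
    · rintro ⟨h3, h2⟩
      exact ⟨⟨p.edges_subset_edgeSet h3, h2⟩, h3⟩
  rw [h1, walk_parity]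

theorem eulerian_iff (G : SimpleGraph V) (w : Sym2 V → ℕ) :
    Eulerian G w ↔ ∀ v : V, Even (∑ e ∈ cut G {v}, w e) := by
  unfold Eulerian
  refine forall_congr' (fun v => ?_)
  rw [← cutWeight_eq]
  have h : cutWeight G w {v} = ∑ u : V, if G.Adj v u then w s(v, u) else 0 := by
    unfold cutWeight
    rw [Finset.sum_eq_single v]
    · refine Finset.sum_congr rfl (fun u _ => ?_)
      by_cases huv : u = v
      · subst huv
        simp
      · simp [huv]
    · intro u _ huv
      refine Finset.sum_eq_zero (fun z _ => ?_)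
      rw [if_neg]
      simp [huv]
    · simp
  rw [h]

end Cuts

end Pool.Agent.H678.GD
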