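import Mathlib

set_option autoImplicit false

/-!
Extension of weights: a weight on the elements outside `F` which is even and admissible on all
cuts avoiding `F` extends to an even and admissible weight, with the same lower bound.
-/

namespace Pool.Agent.H678.GD

open Finset

variable {α : Type*} [DecidableEq α]

theorem sum_symmDiff_add (w : α → ℕ) (S T : Finset α) :
    ∑ f ∈ S, w f + ∑ f ∈ T, w f = ∑ f ∈ symmDiff S T, w f + 2 * ∑ f ∈ S ∩ T, w f := by
  have h1 : ∑ f ∈ S, w f = ∑ f ∈ S \ T, w f + ∑ f ∈ S ∩ T, w f := by
    rw [← Finset.sum_union (Finset.disjoint_sdiff_inter S T), Finset.sdiff_union_inter]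
  have h2 : ∑ f ∈ T, w f = ∑ f ∈ T \ S, w f + ∑ f ∈ T ∩ S, w f := by
    rw [← Finset.sum_union (Finset.disjoint_sdiff_inter T S), Finset.sdiff_union_inter]
  have h3 : symmDiff S T = (S \ T) ∪ (T \ S) := rfl
  have h4 : Disjoint (S \ T) (T \ S) := by
    rw [Finset.disjoint_left]
    intro a ha hb
    simp only [Finset.mem_sdiff] at ha hb
    exact ha.2 hb.1
  rw [h3, Finset.sum_union h4, h1, h2, Finset.inter_comm T S]
  ring

theorem extend_weight (D : Set (Finset α)) (hD : ∀ S T, S ∈ D → T ∈ D → symmDiff S T ∈ D)
    (hb : ∀ e, {e} ∉ D) (m : ℕ) (F : Finset α) :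
    ∀ w : α → ℕ, (∀ e, e ∉ F → m ≤ w e) →
      (∀ T ∈ D, Disjoint T F → Even (∑ e ∈ T, w e) ∧ ∀ e ∈ T, 2 * w e ≤ ∑ f ∈ T, w f) →
      ∃ w' : α → ℕ, (∀ e, e ∉ F → w' e = w e) ∧ (∀ e, m ≤ w' e) ∧
        ∀ T ∈ D, Even (∑ e ∈ T, w' e) ∧ ∀ e ∈ T, 2 * w' e ≤ ∑ f ∈ T, w' f := by
  classical
  induction F using Finset.induction_on with
  | empty =>
    intro w hm hw
    exact ⟨w, fun _ _ => rfl, fun e => hm e (Finset.notMem_empty e),
      fun T hT => hw T hT (Finset.disjoint_empty_right T)⟩
  | insert e F he ih =>
    intro w hm hw
    -- the value of a cut through `e`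
    let v : Finset α → ℕ := fun T => ∑ f ∈ T.erase e, w f
    let C : Set (Finset α) := {T | T ∈ D ∧ e ∈ T ∧ Disjoint T F}
    have key : ∃ w1 : α → ℕ, (∀ f, f ≠ e → w1 f = w f) ∧ (∀ f, f ∉ F → m ≤ w1 f) ∧
        ∀ T ∈ D, Disjoint T F → Even (∑ f ∈ T, w1 f) ∧ ∀ f ∈ T, 2 * w1 f ≤ ∑ g ∈ T, w1 g := by
      by_cases hC : C.Nonempty
      · -- choose a cut of minimal value
        obtain ⟨T0, hT0, hmin⟩ : ∃ T0 ∈ C, ∀ T ∈ C, v T0 ≤ v T := by
          have hne : (v '' C).Nonempty := hC.image v
          obtain ⟨T0, hT0, h⟩ := Nat.sInf_mem hne
          exact ⟨T0, hT0, fun T hT => h ▸ Nat.sInf_le (Set.mem_image_of_mem v hT)⟩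
        obtain ⟨hT0D, heT0, hT0F⟩ := hT0
        have hv0 : ∀ f ∈ T0, f ≠ e → w f ≤ v T0 := fun f hf hfe =>
          Finset.single_le_sum (f := w) (fun _ _ => Nat.zero_le _) (Finset.mem_erase.2 ⟨hfe, hf⟩)
        refine ⟨Function.update w e (v T0), fun f hf => Function.update_of_ne hf _ _, ?_, ?_⟩
        · intro f hf
          by_cases hfe : f = e
          · subst hfe
            rw [Function.update_self]
            have hne : (T0.erase f).Nonempty := by
              rw [Finset.nonempty_iff_ne_empty]
              intro h0
              have : T0 = {f} := by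
                rw [← Finset.insert_erase heT0, h0]
                rfl
              exact hb f (this ▸ hT0D)
            obtain ⟨g, hg⟩ := hne
            obtain ⟨hgf, hgT⟩ := Finset.mem_erase.1 hg
            refine le_trans (hm g ?_) (hv0 g hgT hgf)
            rw [Finset.mem_insert, not_or]
            exact ⟨hgf, fun h => Finset.disjoint_left.1 hT0F hgT h⟩
          · rw [Function.update_of_ne hfe]
            refine hm f ?_
            rw [Finset.mem_insert, not_or]
            exact ⟨hfe, hf⟩
        · intro T hT hTF
          by_cases heT : e ∈ T
          · have hTC : T ∈ C := ⟨hT, heT, hTF⟩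
            have hsum : ∑ g ∈ T, Function.update w e (v T0) g = v T0 + v T := by
              rw [← Finset.add_sum_erase T _ heT, Function.update_self]
              congr 1
              refine Finset.sum_congr rfl (fun g hg => ?_)
              rw [Function.update_of_ne (Finset.mem_erase.1 hg).1]
            have hsd : symmDiff T0 T ∈ D := hD _ _ hT0D hT
            have hsdF : Disjoint (symmDiff T0 T) (insert e F) := by
              rw [Finset.disjoint_left]
              intro g hg hg'
              rw [Finset.mem_symmDiff] at hg
              rcases Finset.mem_insert.1 hg' with h | h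
              · subst h
                rcases hg with ⟨_, h2⟩ | ⟨_, h2⟩
                · exact h2 heT
                · exact h2 heT0
              · rcases hg with ⟨h1, _⟩ | ⟨h1, _⟩
                · exact Finset.disjoint_left.1 hT0F h1 h
                · exact Finset.disjoint_left.1 hTF h1 h
            obtain ⟨hev, had⟩ := hw _ hsd hsdF
            have h2 : v T0 + v T = ∑ f ∈ symmDiff T0 T, w f +
                2 * ∑ f ∈ T0.erase e ∩ T.erase e, w f := by
              have h := sum_symmDiff_add w (T0.erase e) (T.erase e)
              have h3 : symmDiff (T0.erase e) (T.erase e) = symmDiff T0 T := by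
                ext g
                simp only [Finset.mem_symmDiff, Finset.mem_erase]
                by_cases hge : g = e
                · subst hge
                  simp [heT, heT0]
                · simp [hge]
              rw [h3] at h
              exact h
            refine ⟨?_, ?_⟩
            · rw [hsum, h2]
              exact hev.add (even_two_mul _)
            · intro f hf
              rw [hsum]
              by_cases hfe : f = e
              · subst hfe
                rw [Function.update_self]
                have := hmin T hTC
                omega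
              · rw [Function.update_of_ne hfe]
                have hfv : w f ≤ v T :=
                  Finset.single_le_sum (f := w) (fun _ _ => Nat.zero_le _)
                    (Finset.mem_erase.2 ⟨hfe, hf⟩)
                by_cases hf0 : f ∈ T0
                · have := hv0 f hf0 hfe
                  omega
                · have : f ∈ symmDiff T0 T := Finset.mem_symmDiff.2 (Or.inr ⟨hf, hf0⟩)
                  have := had f this
                  omega
          · have hsum : ∀ g ∈ T, Function.update w e (v T0) g = w g := by
              intro g hg
              refine Function.update_of_ne ?_ _ _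
              rintro rfl
              exact heT hg
            have hTF' : Disjoint T (insert e F) := by
              rw [Finset.disjoint_insert_right]
              exact ⟨heT, hTF⟩
            obtain ⟨h1, h2⟩ := hw T hT hTF'
            refine ⟨by rwa [Finset.sum_congr rfl hsum], fun f hf => ?_⟩
            rw [Finset.sum_congr rfl hsum, hsum f hf]
            exact h2 f hf
      · refine ⟨Function.update w e m, fun f hf => Function.update_of_ne hf _ _, ?_, ?_⟩
        · intro f hf
          by_cases hfe : f = e
          · subst hfe
            rw [Function.update_self]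
          · rw [Function.update_of_ne hfe]
            refine hm f ?_
            rw [Finset.mem_insert, not_or]
            exact ⟨hfe, hf⟩
        · intro T hT hTF
          have heT : e ∉ T := fun h => hC ⟨T, hT, h, hTF⟩
          have hsum : ∀ g ∈ T, Function.update w e m g = w g := by
            intro g hg
            refine Function.update_of_ne ?_ _ _
            rintro rfl
            exact heT hg
          have hTF' : Disjoint T (insert e F) := by
            rw [Finset.disjoint_insert_right]
            exact ⟨heT, hTF⟩
          obtain ⟨h1, h2⟩ := hw T hT hTF'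
          refine ⟨by rwa [Finset.sum_congr rfl hsum], fun f hf => ?_⟩
          rw [Finset.sum_congr rfl hsum, hsum f hf]
          exact h2 f hf
    obtain ⟨w1, h1, h2, h3⟩ := key
    obtain ⟨w', h4, h5, h6⟩ := ih w1 h2 h3
    refine ⟨w', ?_, h5, h6⟩
    intro f hf
    rw [Finset.mem_insert, not_or] at hf
    rw [h4 f hf.2, h1 f hf.1]

end Pool.Agent.H678.GD
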