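import Pool.Agent.H678.GD.Main

set_option autoImplicit false

/-!
Every bridgeless graph contractible to a Petersen graph (with parallel edges) has, for all `m`,
an admissible eulerian weight with all values at least `m` and without faithful circuit cover.
-/

namespace Pool.Agent.H678.GD

open Finset SimpleGraph
open scoped Classical

/-- `φ` contracts `G` to the Petersen graph: its fibres induce connected graphs, and two
different fibres are joined by at least one edge if and only if the corresponding vertices of the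
Petersen graph are adjacent. -/
structure PetersenContraction {V : Type*} (G : SimpleGraph V) (φ : V → PV) : Prop where
  conn : ∀ v : PV, (G.induce {x | φ x = v}).Connected
  adj : ∀ u v : PV, u ≠ v → ((∃ x y : V, φ x = u ∧ φ y = v ∧ G.Adj x y) ↔ petersen.Adj u v)

section

variable {V : Type*} [Fintype V] (G : SimpleGraph V) (φ : V → PV)

/-- the edges over the edge `k` of the Petersen graph -/
noncomputable def bun (k : PE) : Finset (Sym2 V) :=
  (univ : Finset (Sym2 V)).filter (fun e => e ∈ G.edgeSet ∧ e.map φ = pend k)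

theorem mem_bun (k : PE) (e : Sym2 V) : e ∈ bun G φ k ↔ e ∈ G.edgeSet ∧ e.map φ = pend k := by
  simp [bun]

/-- the preimage of a set of vertices of the Petersen graph -/
noncomputable def pre (Q : Finset PV) : Finset V := (univ : Finset V).filter (fun x => φ x ∈ Q)

theorem mem_pre (Q : Finset PV) (x : V) : x ∈ pre φ Q ↔ φ x ∈ Q := by
  simp [pre]

theorem crosses_pre (Q : Finset PV) (e : Sym2 V) : Crosses (pre φ Q) e ↔ Crosses Q (e.map φ) := by
  induction e using Sym2.ind with
  | _ a b =>
    rw [Sym2.map_mk, crosses_mk, crosses_mk]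
    simp only [mem_pre]

theorem not_crosses_diag (Q : Finset PV) (a b : PV) (h : a = b) : ¬ Crosses Q s(a, b) := by
  subst h
  rw [crosses_mk]
  tauto

variable {G φ}

omit [Fintype V] in
theorem PetersenContraction.exists_kind (hφ : PetersenContraction G φ) {a b : V}
    (hab : G.Adj a b) (hne : φ a ≠ φ b) : ∃ k : PE, Sym2.map φ s(a, b) = pend k := by
  obtain ⟨k, hk⟩ := exists_pend _ _ ((hφ.adj _ _ hne).1 ⟨a, b, rfl, rfl, hab⟩)
  exact ⟨k, by rw [Sym2.map_mk, hk]⟩

theorem PetersenContraction.cut_pre (hφ : PetersenContraction G φ) (Q : Finset PV) :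
    cut G (pre φ Q) =
      ((univ : Finset PE).filter (fun k => Crosses Q (pend k))).biUnion (bun G φ) := by
  ext e
  rw [mem_cut, crosses_pre, Finset.mem_biUnion]
  constructor
  · rintro ⟨h1, h2⟩
    induction e using Sym2.ind with
    | _ a b =>
      have hne : φ a ≠ φ b := by
        intro h
        exact not_crosses_diag Q _ _ h (by rwa [Sym2.map_mk] at h2)
      obtain ⟨k, hk⟩ := hφ.exists_kind h1 hne
      exact ⟨k, by simpa [← hk] using h2, (mem_bun G φ k _).2 ⟨h1, hk⟩⟩
  · rintro ⟨k, hk, he⟩
    rw [mem_bun] at he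
    exact ⟨he.1, by rw [he.2]; exact (Finset.mem_filter.1 hk).2⟩

theorem PetersenContraction.sum_cut_pre (hφ : PetersenContraction G φ) (Q : Finset PV)
    (u : Sym2 V → ℕ) : ∑ e ∈ cut G (pre φ Q), u e =
      ∑ k : PE, if Crosses Q (pend k) then ∑ e ∈ bun G φ k, u e else 0 := by
  rw [hφ.cut_pre, Finset.sum_biUnion, Finset.sum_filter]
  intro k _ l _ hkl
  rw [Function.onFun, Finset.disjoint_left]
  intro e hk hl
  rw [mem_bun] at hk hl
  exact hkl (pend_injective k l (hk.2.symm.trans hl.2))

/-- a set which is not crossed by edges inside the fibres is a union of fibres -/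
theorem PetersenContraction.union_of_fibres (hφ : PetersenContraction G φ) (S : Finset V)
    (hS : ∀ a b : V, G.Adj a b → φ a = φ b → (a ∈ S ↔ b ∈ S)) : ∃ Q : Finset PV, S = pre φ Q := by
  refine ⟨(univ : Finset PV).filter (fun v => ∃ x, φ x = v ∧ x ∈ S), ?_⟩
  ext x
  rw [mem_pre, Finset.mem_filter]
  constructor
  · intro hx
    exact ⟨Finset.mem_univ _, x, rfl, hx⟩
  · rintro ⟨_, y, hy, hyS⟩
    have key : ∀ (s t : {z : V | φ z = φ x}), (G.induce {z | φ z = φ x}).Reachable s t →
        ((s : V) ∈ S ↔ (t : V) ∈ S) := by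
      rintro s t ⟨p⟩
      induction p with
      | nil => exact Iff.rfl
      | @cons s t r hst _ ih =>
        refine Iff.trans (hS s t ?_ ?_) ih
        · exact hst
        · have h1 : φ s = φ x := s.2
          have h2 : φ t = φ x := t.2
          rw [h1, h2]
    exact (key ⟨y, hy⟩ ⟨x, rfl⟩ ((hφ.conn (φ x)).preconnected _ _)).1 hyS

theorem PetersenContraction.bun_nonempty (hφ : PetersenContraction G φ) (k : PE) :
    (bun G φ k).Nonempty := by
  obtain ⟨u, v, huv, hk⟩ := pend_adj k
  obtain ⟨x, y, hx, hy, hxy⟩ := (hφ.adj u v huv.ne).2 huv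
  exact ⟨s(x, y), (mem_bun G φ k _).2 ⟨hxy, by rw [Sym2.map_mk, hx, hy, hk]⟩⟩

/-- The main construction. -/
theorem contraction_bad (hG : Bridgeless G) (hφ : PetersenContraction G φ) (m : ℕ) :
    ∃ w : Sym2 V → ℕ, (∀ e, m ≤ w e) ∧ Eulerian G w ∧ Admissible G w ∧
      ∀ r : ℕ, Odd r → ¬ FaithfulCover G (fun e => r * w e) := by
  -- representatives of the bundles
  choose rep hrep using fun k => hφ.bun_nonempty k
  have hrepmap : ∀ k, (rep k).map φ = pend k := fun k => ((mem_bun G φ k _).1 (hrep k)).2
  have hrepinj : ∀ k l, rep k = rep l → k = l := by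
    intro k l h
    exact pend_injective k l (by rw [← hrepmap k, ← hrepmap l, h])
  set K : ℕ := Fintype.card (Sym2 V) with hK
  set c : ℕ := 2 * (K * m) + 1 with hc
  let b : PE → ℕ := fun k => (bun G φ k).card
  have hb1 : ∀ k, 1 ≤ b k := fun k => Finset.card_pos.2 (hφ.bun_nonempty k)
  have hbK : ∀ k, b k * m ≤ K * m := fun k => Nat.mul_le_mul_right m (Finset.card_le_univ _)
  have hbm : ∀ k, (b k - 1) * m + m = b k * m := by
    intro k
    rw [← Nat.succ_mul, Nat.succ_eq_add_one, Nat.sub_add_cancel (hb1 k)]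
  let t : PE → ℕ := fun k => if k.1 = 2 then (b k - 1) * m else 0
  let R : PE → ℕ := fun k => if k.1 = 2 then 2 * c + (b k - 1) * m else c - (b k - 1) * m
  let w0 : Sym2 V → ℕ := fun e => if h : ∃ k, e = rep k then R h.choose else m
  have hw0rep : ∀ k, w0 (rep k) = R k := by
    intro k
    have h : ∃ l, rep k = rep l := ⟨k, rfl⟩
    have : w0 (rep k) = R h.choose := dif_pos h
    rw [this, hrepinj _ _ h.choose_spec.symm]
  have hw0other : ∀ e, (∀ k, e ≠ rep k) → w0 e = m := by
    intro e he
    have h : ¬ ∃ l, e = rep l := fun ⟨l, hl⟩ => he l hl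
    exact dif_neg h
  have hRm : ∀ k, m ≤ R k := by
    intro k
    have h1 := hbK k
    have h2 := hbm k
    by_cases hk : k.1 = 2
    · simp only [R, if_pos hk]
      have : m ≤ K * m := by omega
      omega
    · simp only [R, if_neg hk]
      omega
  have hm0 : ∀ e, m ≤ w0 e := by
    intro e
    by_cases h : ∃ k, e = rep k
    · obtain ⟨k, rfl⟩ := h
      rw [hw0rep]
      exact hRm k
    · rw [hw0other e (fun k hk => h ⟨k, hk⟩)]
  -- the weights of the bundles
  have hB : ∀ k, ∑ e ∈ bun G φ k, w0 e = c * pw k + 2 * t k := by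
    intro k
    rw [← Finset.add_sum_erase _ _ (hrep k), hw0rep]
    have h1 : ∑ e ∈ (bun G φ k).erase (rep k), w0 e = (b k - 1) * m := by
      rw [Finset.sum_congr rfl (fun e he => hw0other e ?_), Finset.sum_const,
        Finset.card_erase_of_mem (hrep k), smul_eq_mul]
      intro l hl
      have h2 := Finset.mem_erase.1 he
      have h3 := (mem_bun G φ k e).1 h2.2
      rw [hl, hrepmap] at h3
      have h4 := pend_injective _ _ h3.2
      rw [h4] at hl
      exact h2.1 hl
    rw [h1]
    have h1 := hbK k
    have h2 := hbm k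
    obtain ⟨a, j⟩ := k
    by_cases hk : a = 2
    · subst hk
      simp only [R, t, pw, if_true]
      ring
    · simp only [R, t, pw, if_neg hk]
      omega
  have hwB : ∀ k, ∀ e ∈ bun G φ k, 2 * w0 e ≤ 2 * (c * pw k) + 2 * t k := by
    intro k e he
    have h1 := hbK k
    have h2 := hbm k
    have h5 : m ≤ c := by omega
    have hpw : 1 ≤ pw k := by
      unfold pw
      split_ifs <;> omega
    have h6 : c ≤ c * pw k := Nat.le_mul_of_pos_right c hpw
    by_cases her : e = rep k
    · subst her
      rw [hw0rep]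
      obtain ⟨a, j⟩ := k
      by_cases hk : a = 2
      · subst hk
        simp only [R, t, pw, if_true]
        omega
      · simp only [R, t, pw, if_neg hk]
        omega
    · rw [hw0other e]
      · omega
      · intro l hl
        have h3 := (mem_bun G φ k e).1 he
        rw [hl, hrepmap] at h3
        have h4 := pend_injective _ _ h3.2
        rw [h4] at hl
        exact her hl
  -- extend the weight
  let D : Set (Finset (Sym2 V)) := {T | ∃ S : Finset V, T = cut G S}
  let F : Finset (Sym2 V) := (univ : Finset (Sym2 V)).filter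
    (fun e => e ∈ G.edgeSet ∧ ∀ k, e ∉ bun G φ k)
  have hD : ∀ S T, S ∈ D → T ∈ D → symmDiff S T ∈ D := by
    rintro _ _ ⟨S, rfl⟩ ⟨T, rfl⟩
    exact ⟨symmDiff S T, (cut_symmDiff G S T).symm⟩
  have hDs : ∀ e, ({e} : Finset (Sym2 V)) ∉ D := by
    rintro e ⟨S, hS⟩
    exact cut_ne_singleton hG e S hS.symm
  obtain ⟨w, hw1, hw2, hw3⟩ := extend_weight D hD hDs m F w0 (fun e _ => hm0 e) (by
    rintro _ ⟨S, rfl⟩ hdisj
    obtain ⟨Q, rfl⟩ := hφ.union_of_fibres S (by
      intro x y hxy hφxy
      by_contra hcon
      have h1 : s(x, y) ∈ cut G S := by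
        rw [mem_cut_mk]
        refine ⟨hxy, ?_⟩
        tauto
      refine Finset.disjoint_left.1 hdisj h1 (Finset.mem_filter.2 ⟨Finset.mem_univ _, hxy, ?_⟩)
      intro k hk
      rw [mem_bun, Sym2.map_mk, hφxy] at hk
      obtain ⟨u, v, huv, hk2⟩ := pend_adj k
      rw [hk2] at hk
      have := Sym2.eq_iff.1 hk.2
      rcases this with ⟨h3, h4⟩ | ⟨h3, h4⟩
      · exact huv.ne (h3.symm.trans h4)
      · exact huv.ne (h4.symm.trans h3))
    have htot : ∑ e ∈ cut G (pre φ Q), w0 e =
        c * (∑ k : PE, if Crosses Q (pend k) then pw k else 0) +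
          2 * ∑ k : PE, if Crosses Q (pend k) then t k else 0 := by
      rw [hφ.sum_cut_pre, Finset.mul_sum, Finset.mul_sum, ← Finset.sum_add_distrib]
      refine Finset.sum_congr rfl (fun k _ => ?_)
      by_cases hk : Crosses Q (pend k)
      · simp only [if_pos hk]
        exact hB k
      · simp only [if_neg hk, mul_zero, add_zero]
    refine ⟨?_, ?_⟩
    · rw [htot]
      exact ((sum_pw_even Q).mul_left c).add (even_two_mul _)
    · intro e he
      rw [hφ.cut_pre, Finset.mem_biUnion] at he
      obtain ⟨k, hk, hek⟩ := he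
      have hk' := (Finset.mem_filter.1 hk).2
      rw [htot]
      refine (hwB k e hek).trans ?_
      refine Nat.add_le_add ?_ ?_
      · calc 2 * (c * pw k) = c * (2 * pw k) := by ring
          _ ≤ _ := Nat.mul_le_mul_left c (sum_pw_adm Q k hk')
      · refine Nat.mul_le_mul_left 2 ?_
        have := Finset.single_le_sum (f := fun k : PE => if Crosses Q (pend k) then t k else 0)
          (fun _ _ => Nat.zero_le _) (Finset.mem_univ k)
        simpa only [if_pos hk'] using this)
  have hwbun : ∀ k, ∀ e ∈ bun G φ k, w e = w0 e := by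
    intro k e he
    refine hw1 e ?_
    intro hF
    exact (Finset.mem_filter.1 hF).2.2 k he
  refine ⟨w, hw2, ?_, ?_, ?_⟩
  · rw [eulerian_iff]
    intro v
    exact (hw3 _ ⟨{v}, rfl⟩).1
  · intro S x y hx hy hxy
    rw [cutWeight_eq]
    exact (hw3 _ ⟨S, rfl⟩).2 _ ((mem_cut_mk G S x y).2 ⟨hxy, Or.inl ⟨hx, hy⟩⟩)
  · rintro r hr ⟨n, z, p, hp, hcov⟩
    have hcov' : ∀ e ∈ G.edgeSet, (∑ i : Fin n, if e ∈ (p i).edges then 1 else 0) = r * w e := by
      intro e he
      induction e using Sym2.ind with
      | _ x y => exact hcov x y he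
    let X : Fin n → PE → ℕ := fun i k => ∑ e ∈ bun G φ k, if e ∈ (p i).edges then 1 else 0
    have hX : ∀ k, ∑ i, X i k = r * (c * pw k + 2 * t k) := by
      intro k
      simp only [X]
      rw [Finset.sum_comm, ← hB k, Finset.mul_sum]
      refine Finset.sum_congr rfl (fun e he => ?_)
      rw [hcov' e ((mem_bun G φ k e).1 he).1, hwbun k e he]
    have hZ : ∀ (i : Fin n) (Q : Finset PV),
        Even (∑ k : PE, if Crosses Q (pend k) then X i k else 0) := by
      intro i Q
      have := cycle_cut_even (pre φ Q) (p i) (hp i)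
      rw [hφ.sum_cut_pre] at this
      exact this
    let y : Fin n → Fin 5 → ℕ := fun i j => if rep (2, j) ∈ (p i).edges then 1 else 0
    have hy1 : ∀ i j, y i j ≤ 1 := by
      intro i j
      simp only [y]
      split_ifs <;> omega
    have hy2 : ∀ i j, y i j ≤ X i (2, j) := by
      intro i j
      exact Finset.single_le_sum (f := fun e => if e ∈ (p i).edges then 1 else 0)
        (fun _ _ => Nat.zero_le _) (hrep (2, j))
    have hy3 : ∀ j, ∑ i, y i j = r * (2 * c + t (2, j)) := by
      intro j
      have h1 : ∑ i, y i j = r * w (rep (2, j)) :=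
        hcov' _ ((mem_bun G φ _ _).1 (hrep (2, j))).1
      rw [h1, hwbun _ _ (hrep (2, j)), hw0rep]
      simp only [R, t, if_true]
    -- the cut of an outer vertex and of an inner vertex
    have hout : ∀ (j : Fin 5) (B : PE → ℕ),
        (∑ k : PE, if Crosses {(j, false)} (pend k) then B k else 0) =
          B (0, j) + B (0, j - 1) + B (2, j) := by
      intro j B
      rw [sum_crosses]
      simp only [Fin.sum_univ_five, Finset.mem_singleton]
      fin_cases j <;> simp [Prod.ext_iff] <;> first | rfl | exact add_comm _ _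
    have hinn : ∀ (j : Fin 5) (B : PE → ℕ),
        (∑ k : PE, if Crosses {(j, true)} (pend k) then B k else 0) =
          B (1, j) + B (1, j - 2) + B (2, j) := by
      intro j B
      rw [sum_crosses]
      simp only [Fin.sum_univ_five, Finset.mem_singleton]
      fin_cases j <;> simp [Prod.ext_iff] <;> first | rfl | exact add_comm _ _
    have tight : ∀ (Z : Fin n → ℕ) (j : Fin 5), (∀ i, Even (Z i)) → (∀ i, X i (2, j) ≤ Z i) →
        ∑ i, Z i = r * (4 * c + 2 * t (2, j)) → ∀ i, Z i = 2 * y i j := by
      intro Z j h1 h2 h3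
      have h4 : ∀ i ∈ (univ : Finset (Fin n)), 2 * y i j ≤ Z i := by
        intro i _
        have h5 := hy1 i j
        have h6 := hy2 i j
        have h7 := h2 i
        obtain ⟨r, hr⟩ := h1 i
        omega
      have h5 : ∑ i, 2 * y i j = ∑ i, Z i := by
        rw [← Finset.mul_sum, hy3, h3]
        ring
      intro i
      exact ((Finset.sum_eq_sum_iff_of_le h4).1 h5 i (Finset.mem_univ i)).symm
    have ht0 : ∀ j, t (0, j) = 0 := fun j => rfl
    have ht1 : ∀ j, t (1, j) = 0 := fun j => rfl
    have hO : ∀ i j, X i (0, j) + X i (0, j - 1) + X i (2, j) = 2 * y i j := by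
      intro i j
      refine tight (fun i => X i (0, j) + X i (0, j - 1) + X i (2, j)) j ?_ ?_ ?_ i
      · intro i
        have := hZ i {(j, false)}
        rwa [hout] at this
      · intro i
        exact Nat.le_add_left _ _
      · rw [Finset.sum_add_distrib, Finset.sum_add_distrib, hX, hX, hX, pw_zero, pw_zero, pw_two,
          ht0, ht0]
        ring
    have hI : ∀ i j, X i (1, j) + X i (1, j - 2) + X i (2, j) = 2 * y i j := by
      intro i j
      refine tight (fun i => X i (1, j) + X i (1, j - 2) + X i (2, j)) j ?_ ?_ ?_ i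
      · intro i
        have := hZ i {(j, true)}
        rwa [hinn] at this
      · intro i
        exact Nat.le_add_left _ _
      · rw [Finset.sum_add_distrib, Finset.sum_add_distrib, hX, hX, hX, pw_one, pw_one, pw_two,
          ht1, ht1]
        ring
    have hev : ∀ i, (∑ j, X i (0, j)) % 2 = 0 := fun i =>
      parity_core (fun j => X i (0, j)) (fun j => X i (1, j)) (fun j => X i (2, j)) (y i)
        (hy1 i) (hy2 i) (hO i) (hI i)
    have hsum : ∑ i, ∑ j, X i (0, j) = 5 * (r * c) := by
      rw [Finset.sum_comm]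
      simp only [hX, pw_zero, ht0]
      rw [Finset.sum_const]
      simp
    have hev2 : Even (∑ i, ∑ j, X i (0, j)) :=
      Finset.even_sum _ (fun i _ => Nat.even_iff.2 (hev i))
    rw [hsum] at hev2
    have hodd : Odd (5 * (r * c)) :=
      Odd.mul (by decide) (hr.mul ⟨K * m, by rw [hc]⟩)
    exact (Nat.not_even_iff_odd.2 hodd) hev2

end

end Pool.Agent.H678.GD
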