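import Pool.Agent.H678.GD.Petersen

set_option autoImplicit false

/-!
Graphs that can be contracted to a Petersen graph with parallel edges: weights with tight cuts.
-/

namespace Pool.Agent.H678.GD

open Finset SimpleGraph

/-- The parity obstruction. -/
theorem parity_core (X0 X1 X2 y : Fin 5 → ℕ) (h1 : ∀ j, y j ≤ 1) (h2 : ∀ j, y j ≤ X2 j)
    (h3 : ∀ j, X0 j + X0 (j - 1) + X2 j = 2 * y j) (h4 : ∀ j, X1 j + X1 (j - 2) + X2 j = 2 * y j) :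
    (∑ j, X0 j) % 2 = 0 := by
  rw [Fin.sum_univ_five]
  have a0 : X0 0 + X0 4 + X2 0 = 2 * y 0 := h3 0
  have a1 : X0 1 + X0 0 + X2 1 = 2 * y 1 := h3 1
  have a2 : X0 2 + X0 1 + X2 2 = 2 * y 2 := h3 2
  have a3 : X0 3 + X0 2 + X2 3 = 2 * y 3 := h3 3
  have a4 : X0 4 + X0 3 + X2 4 = 2 * y 4 := h3 4
  have b0 : X1 0 + X1 3 + X2 0 = 2 * y 0 := h4 0
  have b1 : X1 1 + X1 4 + X2 1 = 2 * y 1 := h4 1
  have b2 : X1 2 + X1 0 + X2 2 = 2 * y 2 := h4 2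
  have b3 : X1 3 + X1 1 + X2 3 = 2 * y 3 := h4 3
  have b4 : X1 4 + X1 2 + X2 4 = 2 * y 4 := h4 4
  have c0 := h2 0
  have c1 := h2 1
  have c2 := h2 2
  have c3 := h2 3
  have c4 := h2 4
  have d0 := h1 0
  have d1 := h1 1
  have d2 := h1 2
  have d3 := h1 3
  have d4 := h1 4
  clear h1 h2 h3 h4
  generalize X0 0 = x0 at *
  generalize X0 1 = x1 at *
  generalize X0 2 = x2 at *
  generalize X0 3 = x3 at *
  generalize X0 4 = x4 at *
  generalize X1 0 = z0 at *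
  generalize X1 1 = z1 at *
  generalize X1 2 = z2 at *
  generalize X1 3 = z3 at *
  generalize X1 4 = z4 at *
  generalize X2 0 = s0 at *
  generalize X2 1 = s1 at *
  generalize X2 2 = s2 at *
  generalize X2 3 = s3 at *
  generalize X2 4 = s4 at *
  generalize y 0 = y0 at *
  generalize y 1 = y1 at *
  generalize y 2 = y2 at *
  generalize y 3 = y3 at *
  generalize y 4 = y4 at *
  have e0 : (y0 = 0 ∧ s0 = 0) ∨ (y0 = 1 ∧ s0 = 1) ∨ (y0 = 1 ∧ s0 = 2) := by omega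
  have e1 : (y1 = 0 ∧ s1 = 0) ∨ (y1 = 1 ∧ s1 = 1) ∨ (y1 = 1 ∧ s1 = 2) := by omega
  have e2 : (y2 = 0 ∧ s2 = 0) ∨ (y2 = 1 ∧ s2 = 1) ∨ (y2 = 1 ∧ s2 = 2) := by omega
  have e3 : (y3 = 0 ∧ s3 = 0) ∨ (y3 = 1 ∧ s3 = 1) ∨ (y3 = 1 ∧ s3 = 2) := by omega
  have e4 : (y4 = 0 ∧ s4 = 0) ∨ (y4 = 1 ∧ s4 = 1) ∨ (y4 = 1 ∧ s4 = 2) := by omega
  rcases e0 with ⟨rfl, rfl⟩ | ⟨rfl, rfl⟩ | ⟨rfl, rfl⟩ <;>
  rcases e1 with ⟨rfl, rfl⟩ | ⟨rfl, rfl⟩ | ⟨rfl, rfl⟩ <;>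
  rcases e2 with ⟨rfl, rfl⟩ | ⟨rfl, rfl⟩ | ⟨rfl, rfl⟩ <;>
  rcases e3 with ⟨rfl, rfl⟩ | ⟨rfl, rfl⟩ | ⟨rfl, rfl⟩ <;>
  rcases e4 with ⟨rfl, rfl⟩ | ⟨rfl, rfl⟩ | ⟨rfl, rfl⟩ <;> omega

open scoped Classical

theorem crosses_zero (Q : Finset PV) (j : Fin 5) : Crosses Q (pend (0, j)) ↔
    decide ((j, false) ∈ Q) ≠ decide ((j + 1, false) ∈ Q) := by
  rw [pend_zero, crosses_mk]
  by_cases h1 : (j, false) ∈ Q <;> by_cases h2 : (j + 1, false) ∈ Q <;> simp [h1, h2]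

theorem crosses_one (Q : Finset PV) (j : Fin 5) : Crosses Q (pend (1, j)) ↔
    decide ((j, true) ∈ Q) ≠ decide ((j + 2, true) ∈ Q) := by
  rw [pend_one, crosses_mk]
  by_cases h1 : (j, true) ∈ Q <;> by_cases h2 : (j + 2, true) ∈ Q <;> simp [h1, h2]

theorem crosses_two (Q : Finset PV) (j : Fin 5) : Crosses Q (pend (2, j)) ↔
    decide ((j, false) ∈ Q) ≠ decide ((j, true) ∈ Q) := by
  rw [pend_two, crosses_mk]
  by_cases h1 : (j, false) ∈ Q <;> by_cases h2 : (j, true) ∈ Q <;> simp [h1, h2]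

theorem sum_crosses (Q : Finset PV) (B : PE → ℕ) :
    (∑ k : PE, if Crosses Q (pend k) then B k else 0) =
      (∑ j : Fin 5, if decide ((j, false) ∈ Q) ≠ decide ((j + 1, false) ∈ Q) then B (0, j) else 0) +
      (∑ j : Fin 5, if decide ((j, true) ∈ Q) ≠ decide ((j + 2, true) ∈ Q) then B (1, j) else 0) +
      ∑ j : Fin 5, if decide ((j, false) ∈ Q) ≠ decide ((j, true) ∈ Q) then B (2, j) else 0 := by
  rw [Fintype.sum_prod_type, Fin.sum_univ_three]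
  simp only [crosses_zero, crosses_one, crosses_two]

theorem pw_zero (j : Fin 5) : pw (0, j) = 1 := rfl
theorem pw_one (j : Fin 5) : pw (1, j) = 1 := rfl
theorem pw_two (j : Fin 5) : pw (2, j) = 2 := rfl

theorem sum_pw (Q : Finset PV) : (∑ k : PE, if Crosses Q (pend k) then pw k else 0) =
    ptot (fun j => decide ((j, false) ∈ Q)) (fun j => decide ((j, true) ∈ Q)) := by
  rw [sum_crosses]
  rfl

theorem sum_pw_even (Q : Finset PV) :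
    Even (∑ k : PE, if Crosses Q (pend k) then pw k else 0) := by
  rw [sum_pw, Nat.even_iff]
  exact (ptot_facts _ _).1

theorem sum_pw_adm (Q : Finset PV) (k : PE) (hk : Crosses Q (pend k)) :
    2 * pw k ≤ ∑ k : PE, if Crosses Q (pend k) then pw k else 0 := by
  rw [sum_pw]
  obtain ⟨t, j⟩ := k
  have h := (ptot_facts (fun j => decide ((j, false) ∈ Q)) (fun j => decide ((j, true) ∈ Q))).2 j
  fin_cases t
  · exact h.1 ((crosses_zero Q j).1 hk)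
  · exact h.2.1 ((crosses_one Q j).1 hk)
  · exact h.2.2 ((crosses_two Q j).1 hk)

end Pool.Agent.H678.GD
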