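import Pool.Agent.H678.GD.Defs

set_option autoImplicit false

/-!
The Petersen graph: an outer pentagon, an inner pentagram and five spokes.
-/

namespace Pool.Agent.H678.GD

open Finset SimpleGraph

/-- Vertices: `(j, false)` on the outer pentagon, `(j, true)` on the inner one. -/
abbrev PV := Fin 5 × Bool

/-- The Petersen graph. -/
def petersen : SimpleGraph PV where
  Adj u v := (u.1 = v.1 ∧ u.2 ≠ v.2) ∨
    (u.2 = false ∧ v.2 = false ∧ (v.1 = u.1 + 1 ∨ u.1 = v.1 + 1)) ∨
    (u.2 = true ∧ v.2 = true ∧ (v.1 = u.1 + 2 ∨ u.1 = v.1 + 2))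
  symm := ⟨by
    rintro u v (⟨h1, h2⟩ | ⟨h1, h2, h3⟩ | ⟨h1, h2, h3⟩)
    · exact Or.inl ⟨h1.symm, h2.symm⟩
    · exact Or.inr (Or.inl ⟨h2, h1, h3.symm⟩)
    · exact Or.inr (Or.inr ⟨h2, h1, h3.symm⟩)⟩
  loopless := ⟨by decide⟩

instance : DecidableRel petersen.Adj := fun u v => by
  unfold petersen
  infer_instance

/-- The kind (outer, inner, spoke) and the place of an edge of the Petersen graph. -/
abbrev PE := Fin 3 × Fin 5

/-- The ends of the edges of the Petersen graph. -/
def pend (k : PE) : Sym2 PV :=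
  if k.1 = 0 then s((k.2, false), (k.2 + 1, false))
  else if k.1 = 1 then s((k.2, true), (k.2 + 2, true))
  else s((k.2, false), (k.2, true))

theorem pend_zero (j : Fin 5) : pend (0, j) = s((j, false), (j + 1, false)) := rfl
theorem pend_one (j : Fin 5) : pend (1, j) = s((j, true), (j + 2, true)) := rfl
theorem pend_two (j : Fin 5) : pend (2, j) = s((j, false), (j, true)) := rfl

theorem pend_injective : ∀ k l : PE, pend k = pend l → k = l := by
  decide +kernel

theorem exists_pend : ∀ u v : PV, petersen.Adj u v → ∃ k : PE, pend k = s(u, v) := by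
  decide +kernel

theorem pend_adj : ∀ k : PE, ∃ u v : PV, petersen.Adj u v ∧ pend k = s(u, v) := by
  decide +kernel

/-- weight two on the spokes, one elsewhere -/
def pw (k : PE) : ℕ := if k.1 = 2 then 2 else 1

/-- the total weight of a cut of the Petersen graph -/
def ptot (a b : Fin 5 → Bool) : ℕ :=
  (∑ j : Fin 5, if a j ≠ a (j + 1) then 1 else 0) + (∑ j : Fin 5, if b j ≠ b (j + 2) then 1 else 0)
    + ∑ j : Fin 5, if a j ≠ b j then 2 else 0

theorem ptot_facts (a b : Fin 5 → Bool) : ptot a b % 2 = 0 ∧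
    ∀ j : Fin 5, (a j ≠ a (j + 1) → 2 ≤ ptot a b) ∧ (b j ≠ b (j + 2) → 2 ≤ ptot a b) ∧
      (a j ≠ b j → 4 ≤ ptot a b) := by
  revert a b
  decide +kernel

end Pool.Agent.H678.GD
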